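import Mathlib
import Pool.Agent.Helper698.DDef
import Pool.Agent.Y493.DS.Def
import Pool.Agent.Y493.DS.Main

/-!
# The depth of `R ⧸ closure (I ^ n)` and the analytic spread

`R = K[X_1, …, X_r]`, `I` is a nonzero proper monomial ideal, `ℓ = ℓ(I)` its analytic spread
(one plus the largest dimension of a compact face of the Newton polyhedron), `d = d(I)` the largest
degree of a minimal generator. Then `depth R ⧸ closure (I ^ n) ≥ r - ℓ` for all `n ≥ 1`, with
equality for all `n > (ℓ - 1) (d ^ (ℓ - 2) - 1)`. In particular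
`dstab(I) ≤ (ℓ - 1) (d ^ (ℓ - 2) - 1) + 1 ≤ (r - 1) (d ^ (r - 2) - 1) + 1`.
-/

open MvPolynomial Pool.Agent.Helper698.Dstab Pool.Agent.Y493.DS

universe u

namespace Pool.Agent.Results.MP_a8bb4d_al.AnalyticSpreadBound

/-- The depth of `R ⧸ closure (I ^ n)` is at least `r - ℓ(I)` for all `n ≥ 1`, and it is equal to
`r - ℓ(I)` as soon as `n > (ℓ - 1) (D ^ (ℓ - 2) - 1)`, where `D` bounds the degrees of `ℓ` linearly
independent generators on one compact face (for instance `D = d(I)`). Hence the depth stability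
index is at most `(ℓ - 1) (d ^ (ℓ - 2) - 1) + 1 ≤ (r - 1) (d ^ (r - 2) - 1) + 1`. -/
theorem result (K : Type u) [Field K] (r : ℕ) (I : Ideal (MvPolynomial (Fin r) K))
    (hI : IsMonomialIdeal I) (hI0 : I ≠ ⊥) (hI1 : I ≠ ⊤) :
    (1 ≤ spread I ∧ spread I ≤ r) ∧
    (∀ n, 1 ≤ n → ((r - spread I : ℕ) : ℕ∞) ≤ depthQuot (intClosurePow I n)) ∧
    (∀ (w : Fin r → ℚ) (f : Fin (spread I) → (Fin r →₀ ℕ)) (D n : ℕ), (∀ i, 0 < w i) →
      (∀ j, f j ∈ leastGens I w) →
      LinearIndependent ℚ (fun (j : Fin (spread I)) (i : Fin r) => (f j i : ℚ)) →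
      (∀ j, ∑ i, f j i ≤ D) → (spread I - 1) * (D ^ (spread I - 2) - 1) < n →
      depthQuot (intClosurePow I n) = ((r - spread I : ℕ) : ℕ∞)) ∧
    (∀ n, (spread I - 1) * (maxGenDegree I ^ (spread I - 2) - 1) < n →
      depthQuot (intClosurePow I n) = ((r - spread I : ℕ) : ℕ∞)) ∧
    dstabBar I ≤ (spread I - 1) * (maxGenDegree I ^ (spread I - 2) - 1) + 1 ∧
    dstabBar I ≤ (r - 1) * (maxGenDegree I ^ (r - 2) - 1) + 1 := by
  have h1 := one_le_spread I hI hI0 hI1
  have h2 := spread_le I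
  have hd := max_pos I hI hI0 hI1
  have h3 := dstab_le I hI hI0 hI1
  refine ⟨⟨h1, h2⟩, fun n hn => depth_ge I hI hI0 hI1 n hn, ?_,
    fun n hn => depth_eq2 I hI hI0 hI1 n hn, h3, h3.trans ?_⟩
  · intro w f D n hw hf hind hD hn
    have hD' : ∀ j, (f j).degree ≤ D := fun j => by
      rw [Finsupp.degree_eq_sum]; exact hD j
    have hD1 : 1 ≤ D := by
      refine le_trans ?_ (hD' ⟨0, h1⟩)
      rw [Nat.one_le_iff_ne_zero]
      intro h
      exact gens_ne_zero I hI1 _ (hf _).1 ((Finsupp.degree_eq_zero_iff _).1 h)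
    exact depth_least I hI hI0 hI1 _ rfl w hw f hf hind D hD' n (by omega)
      (count_of_lt _ _ _ h1 hD1 hn)
  · apply Nat.add_le_add_right
    apply Nat.mul_le_mul (by omega)
    apply Nat.sub_le_sub_right
    exact Nat.pow_le_pow_right hd (by omega)

end Pool.Agent.Results.MP_a8bb4d_al.AnalyticSpreadBound
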